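import Mathlib
import Pool.Agent.R5.AO.FamA
import Pool.Agent.R5.AO.FamB
import Pool.Agent.R5.AO.PP

set_option autoImplicit false

namespace Pool.Agent.Results.MP_49aecc_co.AllEvenOrders

open Pool.Agent.R5.AO

/-- There is a (finite, simple) `δ`-regular graph of order `n` whose girth is at least `g`. -/
def HasReg (n δ g : ℕ) : Prop :=
  ∃ G : SimpleGraph (Fin n), (∀ v, (G.neighborSet v).ncard = δ) ∧ (g : ℕ∞) ≤ G.egirth

/-- For every large even order `n` and every `g` with `(δ-1)^(a g) ≤ n` there is a `δ`-regular graph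
of order `n` and girth at least `g`. -/
def Holds (δ : ℕ) (a : ℝ) : Prop :=
  ∃ n0 : ℕ, ∀ n : ℕ, n0 ≤ n → Even n → ∀ g : ℕ, ((δ : ℝ) - 1) ^ (a * g) ≤ (n : ℝ) → HasReg n δ g

theorem holds_of (δ : ℕ) (hδ : 3 ≤ δ) (θ a : ℝ) (hθ : 0 < θ) (hF : Fam δ θ)
    (ha : θ < a * Real.log ((δ : ℝ) - 1)) : Holds δ a := by
  obtain ⟨n0, h⟩ := core_reg δ (by omega) θ hθ hF _ ha
  refine ⟨n0, fun n hn hev g hg => h n hn hev g ?_⟩
  have hδr : (3 : ℝ) ≤ δ := by exact_mod_cast hδ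
  have hx : (0 : ℝ) < (δ : ℝ) - 1 := by linarith
  have h1 : Real.log (((δ : ℝ) - 1) ^ (a * g)) ≤ Real.log n :=
    Real.log_le_log (Real.rpow_pos_of_pos hx _) hg
  rw [Real.log_rpow hx] at h1
  linarith

/-- **Regular graphs of every large even order with girth near `(3/2) log_{δ-1} n`, respectively
`(8/5) log_{δ-1} n`.** -/
theorem result :
    (∀ δ : ℕ, IsPrimePow (δ - 1) → ∀ a : ℝ, 2 / 3 < a → Holds δ a) ∧
    (∀ δ : ℕ, 3 ≤ δ → Holds δ 0.7242) ∧
    (∀ k : ℕ, 1 ≤ k → ∀ a : ℝ, 5 / 8 < a → Holds (8 ^ k + 1) a) ∧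
    (∀ a : ℝ, 5 / 8 < a → ∃ δ0 : ℕ, ∀ δ : ℕ, δ0 ≤ δ → Holds δ a) := by
  refine ⟨?_, ?_, ?_, ?_⟩
  · intro δ hq a ha
    have hq2 := hq.two_le
    have hcast : ((δ - 1 : ℕ) : ℝ) = (δ : ℝ) - 1 := by
      rw [Nat.cast_sub (by omega)]; norm_num
    have hl : 0 < Real.log ((δ : ℝ) - 1) := by
      apply Real.log_pos
      rw [← hcast]; exact_mod_cast (by omega : 1 < δ - 1)
    have hF := famA (δ - 1) hq δ (by omega) (by omega)
    rw [hcast] at hF
    exact holds_of δ (by omega) _ a (by positivity) hF (mul_lt_mul_of_pos_right ha hl)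
  · intro δ hδ
    obtain ⟨q, hq, hq1, hq2⟩ := exists_primePow (δ - 1) (by omega)
    have hcast : ((δ - 1 : ℕ) : ℝ) = (δ : ℝ) - 1 := by
      rw [Nat.cast_sub (by omega)]; norm_num
    have hl : 0 < Real.log ((δ : ℝ) - 1) := by
      apply Real.log_pos
      rw [← hcast]; exact_mod_cast (by omega : 1 < δ - 1)
    have hq3 := hq.two_le
    have hlq : 0 < Real.log q := Real.log_pos (by exact_mod_cast (by omega : 1 < q))
    have hF := famA q hq δ (by omega) (by omega)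
    refine holds_of δ hδ _ _ (by positivity) hF ?_
    have hlog : 58 * Real.log q ≤ 63 * Real.log ((δ : ℝ) - 1) := by
      have h2 : (q : ℝ) ^ 58 ≤ ((δ : ℝ) - 1) ^ 63 := by
        rw [← hcast]; exact_mod_cast hq2
      have h3 := Real.log_le_log (by positivity) h2
      rw [Real.log_pow, Real.log_pow] at h3
      exact_mod_cast h3
    linarith
  · intro k hk a ha
    have h8 : 8 ^ 1 ≤ 8 ^ k := Nat.pow_le_pow_right (by norm_num) hk
    have hcast : (((8 ^ k + 1 : ℕ) : ℝ) - 1) = (8 : ℝ) ^ k := by push_cast; ring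
    have hl : 0 < Real.log ((8 : ℝ) ^ k) := by
      apply Real.log_pos
      exact_mod_cast (by omega : 1 < 8 ^ k)
    refine holds_of (8 ^ k + 1) (by omega) _ a (by positivity) (famB k hk _ le_rfl) ?_
    rw [hcast]
    exact mul_lt_mul_of_pos_right ha hl
  · intro a ha
    have hl8 : 0 < Real.log 8 := Real.log_pos (by norm_num)
    obtain ⟨M, hM⟩ := exists_nat_gt (Real.exp (5 / 8 * Real.log 8 / (a - 5 / 8)))
    refine ⟨M + 4, fun δ hδ => ?_⟩
    have hex : ∃ m, δ ≤ 8 ^ m + 1 :=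
      ⟨δ, le_trans (Nat.lt_pow_self (by norm_num)).le (Nat.le_succ _)⟩
    classical
    obtain ⟨m, hm, hmin⟩ : ∃ m, δ ≤ 8 ^ m + 1 ∧ ∀ m' < m, ¬ δ ≤ 8 ^ m' + 1 :=
      ⟨Nat.find hex, Nat.find_spec hex, fun m' h => Nat.find_min hex h⟩
    have hm0 : 1 ≤ m := by
      rcases Nat.eq_zero_or_pos m with h0 | h0
      · subst h0; simp at hm; omega
      · exact h0
    have h1 := hmin (m - 1) (by omega)
    push Not at h1
    have h2 : 8 ^ m = 8 * 8 ^ (m - 1) := by
      rw [← pow_succ']; congr 1; omega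
    have hδr : (M : ℝ) + 3 ≤ (δ : ℝ) - 1 := by
      have : ((M + 4 : ℕ) : ℝ) ≤ δ := by exact_mod_cast hδ
      push_cast at this
      linarith
    have hMr : (0 : ℝ) ≤ M := Nat.cast_nonneg _
    have hx : (0 : ℝ) < (δ : ℝ) - 1 := by linarith
    have h3 : (8 : ℝ) ^ m ≤ 8 * ((δ : ℝ) - 1) := by
      have h4 : 8 ^ m ≤ 8 * (δ - 1) := by rw [h2]; omega
      have h5 : ((8 ^ m : ℕ) : ℝ) ≤ ((8 * (δ - 1) : ℕ) : ℝ) := by exact_mod_cast h4
      rw [Nat.cast_mul, Nat.cast_sub (by omega)] at h5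
      push_cast at h5
      exact h5
    have h6 : Real.log ((8 : ℝ) ^ m) ≤ Real.log 8 + Real.log ((δ : ℝ) - 1) := by
      rw [← Real.log_mul (by norm_num) hx.ne']
      exact Real.log_le_log (by positivity) h3
    have h7 : 5 / 8 * Real.log 8 / (a - 5 / 8) < Real.log ((δ : ℝ) - 1) := by
      rw [Real.lt_log_iff_exp_lt hx]
      linarith
    have ha' : 0 < a - 5 / 8 := by linarith
    rw [div_lt_iff₀ ha'] at h7
    have hlm : 0 < Real.log ((8 : ℝ) ^ m) := by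
      apply Real.log_pos
      have : 8 ^ 1 ≤ 8 ^ m := Nat.pow_le_pow_right (by norm_num) hm0
      exact_mod_cast (by omega : 1 < 8 ^ m)
    refine holds_of δ (by omega) _ a (by positivity) (famB m hm0 δ hm) ?_
    nlinarith

end Pool.Agent.Results.MP_49aecc_co.AllEvenOrders
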